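import Pool.Agent.H86.BCP.Plane
import Pool.Graph.R_pool_sql_team_seeded_620a6dc7.Helper844_FA.JungLift

/-!
# The theorem of Jung in characteristic zero
-/

set_option autoImplicit false

namespace Pool.Agent.H86.BCP

open MvPolynomial
open Pool.Agent.K7.H10.PA
open Pool.Agent.H34.PT (Aff Tri aff_of inv_eq ap_C IsTri)
open Pool.Agent.H922R2
open Pool.Agent.Helper844_FA.JL (lead_one reduce1' ux_of_pderiv)

variable {K : Type} [Field K]

theorem aff_le : Aff K ≤ Tame K := fun _ h => Subgroup.subset_closure (Or.inl h)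

theorem elemX_tame (P : Polynomial K) : (elemX P : Aut2 K) ∈ Tame K :=
  Subgroup.subset_closure (Or.inr ⟨P, elemX_X0 P, elemX_X1 P⟩)

theorem sw_tame : (sw : Aut2 K) ∈ Tame K := by
  refine aff_le (aff_of (a := 0) (b := 1) (c := 0) (a' := 1) (b' := 0) (c' := 0) ?_ ?_)
  · rw [sw_X0]; simp
  · rw [sw_X1]; simp

theorem elemY_tame (P : Polynomial K) : (elemY P : Aut2 K) ∈ Tame K :=
  mul_mem (mul_mem sw_tame (elemX_tame P)) sw_tame

theorem tri_le : Tri K ≤ Tame K := by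
  rintro ψ ⟨α, δ, ε, q, hα, hδ, h0, h1⟩
  obtain ⟨Q, hQ⟩ : ∃ Q : Polynomial K, Q = Polynomial.C α⁻¹ * q := ⟨_, rfl⟩
  have h2 : (elemX Q : Aut2 K) (C α * X 0) = ψ (X 0) := by
    rw [map_mul, ap_C, elemX_X0, h0, hQ, mul_add, uy, map_mul, Polynomial.aeval_C,
      MvPolynomial.algebraMap_eq, ← mul_assoc, ← C_mul, mul_inv_cancel₀ hα, C_1, one_mul]
  have h3 : (elemX Q : Aut2 K) (C δ * X 1 + C ε) = ψ (X 1) := by
    rw [map_add, map_mul, ap_C, ap_C, elemX_X1, h1]
  have h4 : (elemX Q : Aut2 K)⁻¹ * ψ ∈ Aff K := by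
    refine aff_of (a := α) (b := 0) (c := 0) (a' := 0) (b' := δ) (c' := ε) ?_ ?_
    · show (elemX Q : Aut2 K)⁻¹ (ψ (X 0)) = _
      rw [inv_eq h2]; simp
    · show (elemX Q : Aut2 K)⁻¹ (ψ (X 1)) = _
      rw [inv_eq h3]; simp
  have h5 := mul_mem (elemX_tame Q) (aff_le h4)
  rwa [mul_inv_cancel_left] at h5

variable [CharZero K]

theorem linear_tame {φ : Aut2 K} {a b : K} (ha : a ≠ 0) (h : φ (X 0) = C a * X 0 + C b) :
    φ ∈ Tame K := by
  have hu := DJ_unit φ
  rw [DJ_apply, h] at hu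
  have e1 : pderiv 0 (C a * X 0 + C b : MvPolynomial (Fin 2) K) = C a := by simp
  have e2 : pderiv 1 (C a * X 0 + C b : MvPolynomial (Fin 2) K) = 0 := by
    simp [pderiv_X_of_ne (show (0 : Fin 2) ≠ 1 by decide)]
  rw [e1, e2, zero_mul, sub_zero] at hu
  obtain ⟨c, hc, hc2⟩ := MvPolynomial.isUnit_iff_eq_C_of_isReduced.1 (isUnit_of_mul_isUnit_right hu)
  have hc0 : c ≠ 0 := hc.ne_zero
  obtain ⟨P, hP⟩ := ux_of_pderiv (p := φ (X 1) - C c * X 1) (by
    rw [map_sub, hc2]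
    simp)
  have h1 : φ (X 1) = C c * X 1 + ux P := by rw [← hP]; ring
  have h2 : (sw : Aut2 K) * φ * sw ∈ Tri K := by
    refine ⟨c, a, b, P, hc0, ha, ?_, ?_⟩
    · show sw (φ (sw (X 0))) = _
      rw [sw_X0, h1, map_add, map_mul, gmap_ux, sw_X0, sw_X1]
      congr 1
      congr 1
      exact ap_C sw c
    · show sw (φ (sw (X 1))) = _
      rw [sw_X1, h, map_add, map_mul, sw_X0]
      congr 1
      · congr 1
        exact ap_C sw a
      · exact ap_C sw b
  have h3 : (sw : Aut2 K) * sw = 1 := by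
    apply aut_ext
    intro i
    exact sw_sw (X i)
  have h4 : φ = sw * (sw * φ * sw) * sw := by
    rw [← mul_assoc, ← mul_assoc, h3, one_mul, mul_assoc, h3, mul_one]
  rw [h4]
  exact mul_mem (mul_mem sw_tame (tri_le h2)) sw_tame

theorem reduce_tame (f : MvPolynomial (Fin 2) K) (hf : LN (DJ f)) (h0 : 0 < degreeOf 0 f)
    (h1 : 0 < degreeOf 1 f) :
    ∃ τ ∈ Tame K, degreeOf 0 (τ f) + degreeOf 1 (τ f) < degreeOf 0 f + degreeOf 1 f := by
  set m := degreeOf 0 f with hm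
  set n := degreeOf 1 f with hn
  set g := Nat.gcd m n with hg
  have hgpos : 0 < g := Nat.gcd_pos_of_pos_left _ h0
  obtain ⟨m', hm'⟩ : g ∣ m := Nat.gcd_dvd_left m n
  obtain ⟨n', hn'⟩ : g ∣ n := Nat.gcd_dvd_right m n
  have hm'pos : 0 < m' := Nat.pos_of_ne_zero (by rintro rfl; omega)
  have hn'pos : 0 < n' := Nat.pos_of_ne_zero (by rintro rfl; omega)
  have hco : Nat.Coprime m' n' := by
    have h := Nat.coprime_div_gcd_div_gcd (m := m) (n := n) hgpos
    rw [← hg] at h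
    rwa [Nat.div_eq_of_eq_mul_right hgpos hm', Nat.div_eq_of_eq_mul_right hgpos hn'] at h
  rcases lead_one f hf g m' n' hgpos hm'pos hn'pos hco hm' hn' with h2 | h2
  · -- m' = 1 : swap
    subst h2
    have e0 : degreeOf 0 (sw f) = n := by
      rw [degreeOf_sw]
      simp [hn]
    have e1 : degreeOf 1 (sw f) = m := by
      rw [degreeOf_sw]
      simp [hm]
    obtain ⟨P, h3, h4⟩ := reduce1' (sw f) (LN_map sw f hf) g n' hgpos hn'pos (by rw [e0, hn'])
      (by rw [e1, hm'])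
    refine ⟨elemY P * sw, mul_mem (elemY_tame P) sw_tame, ?_⟩
    rw [AlgEquiv.mul_apply]
    omega
  · subst h2
    obtain ⟨P, h3, h4⟩ := reduce1' f hf g m' hgpos hm'pos hm' hn'
    exact ⟨elemY P, elemY_tame P, by omega⟩

/-- **Jung's theorem**: in characteristic zero all automorphisms of the plane are tame -/
theorem jung : Tame K = ⊤ := by
  rw [eq_top_iff]
  intro φ _
  induction hN : degreeOf 0 (φ (X 0)) + degreeOf 1 (φ (X 0)) using Nat.strong_induction_on
    generalizing φ with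
  | _ N ih =>
    by_cases h1 : degreeOf 1 (φ (X 0)) = 0
    · obtain ⟨a, b, ha, h⟩ := linear_of_pderiv (DJ_unit φ) (pderiv_of_degreeOf h1)
      exact linear_tame ha h
    · by_cases h0 : degreeOf 0 (φ (X 0)) = 0
      · have h2 : degreeOf 1 (((sw : Aut2 K) * φ) (X 0)) = 0 := by
          rw [AlgEquiv.mul_apply, degreeOf_sw]
          simpa using h0
        obtain ⟨a, b, ha, h⟩ := linear_of_pderiv (DJ_unit ((sw : Aut2 K) * φ)) (pderiv_of_degreeOf h2)
        have h3 := linear_tame ha h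
        have h4 : φ = (sw : Aut2 K)⁻¹ * (sw * φ) := by group
        rw [h4]
        exact mul_mem (inv_mem sw_tame) h3
      · obtain ⟨τ, hτ, h2⟩ := reduce_tame (φ (X 0)) (LN_ga φ) (Nat.pos_of_ne_zero h0)
          (Nat.pos_of_ne_zero h1)
        have h3 := ih _ (hN ▸ h2) (φ := τ * φ) trivial rfl
        have h4 : φ = τ⁻¹ * (τ * φ) := by group
        rw [h4]
        exact mul_mem (inv_mem hτ) h3

theorem TA_top {A : Type} [CommRing A] [Algebra ℚ A] (φ : Aut2 A) : φ ∈ TA A := by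
  intro F _ f
  have : CharZero F :=
    (RingHom.charZero_iff (f.comp (algebraMap ℚ A)).injective).1 inferInstance
  rw [jung]
  trivial

end Pool.Agent.H86.BCP
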