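import Pool.Graph.R_pool_sql_team_seeded_b0a926ef.R941.BC.El

/-!
# Groups acting on several trees and the Baum-Connes conjecture with coefficients
-/

set_option autoImplicit false

namespace Pool.Agent.H86.BCP

open Pool.Agent.R941.BC

/-- the inheritance properties of the Baum-Connes conjecture with coefficients for countable groups:
subgroups, directed unions, extensions, actions on trees without inversions, virtually solvable
groups -/
structure InheritBC (B : ∀ (G : Type) [Group G], Prop) : Prop where
  sub : ∀ (G H : Type) [Group G] [Group H] [Countable H] (f : G →* H), Function.Injective f →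
    B H → B G
  loc : ∀ (G : Type) [Group G] [Countable G], (∀ L : Subgroup G, L.FG → B L) → B G
  ext : ∀ (G : Type) [Group G] [Countable G] (N : Subgroup G) [N.Normal], B (G ⧸ N) →
    (∀ H : Subgroup G, N ≤ H → N.relIndex H ≠ 0 → B H) → B G
  tree : ∀ (G V : Type) [Group G] [Countable G] [MulAction G V] (T : SimpleGraph V), T.IsTree →
    (∀ (g : G) (u v : V), T.Adj u v → T.Adj (g • u) (g • v)) →
    (∀ (g : G) (u v : V), T.Adj u v → ¬ (g • u = v ∧ g • v = u)) →
    (∀ v : V, B (MulAction.stabilizer G v)) → B G
  solv : ∀ (G : Type) [Group G] [Countable G] (L : Subgroup G), L.FiniteIndex →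
    Group.IsSolvable L → B G

variable {B : ∀ (G : Type) [Group G], Prop}

theorem InheritBC.inh (h : InheritBC B) : Inherit B B := ⟨h.sub, h.loc, h.ext, h.ext⟩

theorem solv_pi {S : Type} [Group S] (hS : Group.IsSolvable S) (ι : Type) :
    Group.IsSolvable (ι → S) := by
  obtain ⟨n, hn⟩ := (Group.isSolvable_def S).1 hS
  refine (Group.isSolvable_def _).2 ⟨n, ?_⟩
  rw [eq_bot_iff]
  intro x hx
  rw [Subgroup.mem_bot]
  funext i
  have h1 := map_derivedSeries_le_derivedSeries (Pi.evalMonoidHom (fun _ : ι => S) i) n
    (Subgroup.mem_map_of_mem _ hx)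
  rw [hn, Subgroup.mem_bot] at h1
  exact h1

theorem W_solv (h : InheritBC B) (S : Type) [Group S] (hS : Group.IsSolvable S) : W B S := by
  intro H _ _ L hL ι _ f hf
  have := solv_pi hS ι
  exact h.solv H L hL (Group.isSolvable_of_isSolvable_injective hf)

theorem W_hom (h : InheritBC B) {G Q : Type} [Group G] [Group Q] (f : G →* Q) (hk : W B f.ker)
    (hQ : W B Q) : W B G :=
  W_ext h.inh G f.ker hk
    (W_sub _ Q (QuotientGroup.kerLift f) (QuotientGroup.kerLift_injective f) hQ)

theorem W_prod (h : InheritBC B) {G H : Type} [Group G] [Group H] (hG : W B G) (hH : W B H) :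
    W B (G × H) := by
  refine W_hom h (MonoidHom.snd G H) (W_sub _ G ((MonoidHom.fst G H).comp (Subgroup.subtype _))
    ?_ hG) hH
  rintro ⟨⟨a, b⟩, hb⟩ ⟨⟨a', b'⟩, hb'⟩ h
  have hb1 : b = 1 := hb
  have hb2 : b' = 1 := hb'
  have h1 : a = a' := h
  subst h1 hb1 hb2
  rfl

theorem W_pi (h : InheritBC B) (T : Type)
    [Finite T] : ∀ (G : T → Type) [∀ t, Group (G t)], (∀ t, W B (G t)) → W B (∀ t, G t) := by
  induction T using Finite.induction_empty_option with
  | @of_equiv X Y e ih =>
    intro G _ hG
    refine W_sub _ (∀ x, G (e x))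
      { toFun := fun u x => u (e x)
        map_one' := rfl
        map_mul' := fun _ _ => rfl } ?_ (ih (fun x => G (e x)) fun x => hG (e x))
    intro u v h
    funext y
    obtain ⟨x, rfl⟩ := e.surjective y
    exact congrFun h x
  | h_empty => intro G _ _; exact W_solv h _ inferInstance
  | @h_option X _ ih =>
    intro G _ hG
    refine W_sub _ (G none × (∀ x, G (some x)))
      { toFun := fun u => (u none, fun x => u (some x))
        map_one' := rfl
        map_mul' := fun _ _ => rfl } ?_ (W_prod h (hG none) (ih (fun x => G (some x)) fun x => hG _))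
    intro u v h
    funext o
    cases o with
    | none => exact congrArg Prod.fst h
    | some x => exact congrFun (congrArg Prod.snd h) x

/-- **groups acting on several trees** -/
theorem trees (h : InheritBC B) {G : Type} [Group G] [Countable G] {ι : Type} [Finite ι]
    (V : ι → Type) [∀ i, MulAction G (V i)] (T : ∀ i, SimpleGraph (V i)) (hT : ∀ i, (T i).IsTree)
    (hadj : ∀ i (g : G) (u v : V i), (T i).Adj u v → (T i).Adj (g • u) (g • v))
    (hinv : ∀ i (g : G) (u v : V i), (T i).Adj u v → ¬ (g • u = v ∧ g • v = u))
    (hst : ∀ (v : ∀ i, V i) (S : Subgroup G), (∀ g ∈ S, ∀ i, g • v i = v i) → B S) : B G := by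
  classical
  have key : ∀ (s : Set ι), s.Finite → ∀ (v : ∀ i, V i) (S : Subgroup G),
      (∀ g ∈ S, ∀ i ∉ s, g • v i = v i) → B S := by
    intro s hs
    induction s, hs using Set.Finite.induction_on with
    | empty => exact fun v S hS => hst v S fun g hg i => hS g hg i (Set.notMem_empty i)
    | @insert a s ha _ ih =>
      intro v S hS
      let _ : MulAction S (V a) := MulAction.compHom (V a) S.subtype
      refine h.tree S (V a) (T a) (hT a) (fun g u w => hadj a g.1 u w)
        (fun g u w => hinv a g.1 u w) fun w => ?_
      have h1 : B ((MulAction.stabilizer S w).map S.subtype) := by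
        refine ih (Function.update v a w) _ ?_
        rintro _ ⟨g, hg, rfl⟩ i hi
        rcases eq_or_ne i a with rfl | hia
        · rw [Function.update_self]
          exact hg
        · rw [Function.update_of_ne hia]
          exact hS g.1 g.2 i fun h2 => (Set.mem_insert_iff.1 h2).elim hia hi
      refine h.sub _ _ ((S.subtype.comp (Subgroup.subtype _)).codRestrict
        ((MulAction.stabilizer S w).map S.subtype) fun g => ⟨g.1, g.2, rfl⟩) ?_ h1
      intro x y hxy
      exact Subtype.ext (Subtype.ext (congrArg (fun z : (MulAction.stabilizer S w).map S.subtype =>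
        (z : G)) hxy))
  by_cases hne : Nonempty (∀ i, V i)
  · obtain ⟨v⟩ := hne
    have h1 := key Set.univ Set.finite_univ v ⊤ fun g _ i hi => absurd (Set.mem_univ i) hi
    exact h.sub G _ (Subgroup.topEquiv (G := G)).symm.toMonoidHom
      (Subgroup.topEquiv (G := G)).symm.injective h1
  · exfalso
    apply hne
    refine ⟨fun i => ?_⟩
    have := (hT i).1.nonempty
    exact Classical.arbitrary _

end Pool.Agent.H86.BCP
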