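import Pool.Agent.H86.BCP.Base
import Pool.Agent.H34.PT.Stab
import Pool.Graph.R_pool_sql_team_seeded_35f281b4.K7.H10.PA.Rg

/-!
# Automorphisms of the affine plane and the Baum-Connes conjecture with coefficients
-/

set_option autoImplicit false

namespace Pool.Agent.H86.BCP

open Pool.Agent.R941.BC (W W_sub W_ext W_le)
open Pool.Agent.H34.PT (cg Vt AT ET Aff Tri deg lpart lpart_ker tri_solvable)
open Pool.Agent.K7.H10.PA
open MvPolynomial Matrix

variable {B : ∀ (G : Type) [Group G], Prop}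

theorem W_aff (h : InheritBC B) {K : Type} [Field K] (hK : W B (GL (Fin 2) K)) : W B (Aff K) := by
  refine W_hom h (lpart K) (W_solv h _ (Group.isSolvable_of_comm ?_)) hK
  rintro ⟨a, ha⟩ ⟨b, hb⟩
  obtain ⟨s, hs⟩ := lpart_ker ha
  obtain ⟨t, ht⟩ := lpart_ker hb
  refine Subtype.ext (Subtype.ext ?_)
  show a.1 * b.1 = b.1 * a.1
  rw [hs, ht, tr_mul, tr_mul, add_comm]

theorem W_stab (h : InheritBC B) {K : Type} [Field K] (hK : W B (GL (Fin 2) K))
    (v : Vt (AT K) (ET K)) : W B (MulAction.stabilizer (Tame K) v) := by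
  rcases v with x | x
  · obtain ⟨g, rfl⟩ := QuotientGroup.mk_surjective x
    have h1 : ∀ u : MulAction.stabilizer (Tame K) (Sum.inl (g : Tame K ⧸ AT K) : Vt (AT K) (ET K)),
        ((g⁻¹ * u.1 * g : Tame K) : Aut2 K) ∈ Aff K := by
      rintro ⟨u, hu⟩
      have h2 : (Sum.inl ((u * g : Tame K) : Tame K ⧸ AT K) : Vt (AT K) (ET K)) =
        Sum.inl (g : Tame K ⧸ AT K) := hu
      have h3 := Sum.inl.inj h2
      rw [eq_comm, QuotientGroup.eq] at h3
      rw [mul_assoc]
      exact h3
    refine W_sub _ _ (MonoidHom.mk' (fun u => (⟨_, h1 u⟩ : Aff K)) ?_) ?_ (W_aff h hK)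
    · intro u v
      have h2 : (g⁻¹ * (u.1 * v.1) * g : Tame K) = (g⁻¹ * u.1 * g) * (g⁻¹ * v.1 * g) := by group
      exact Subtype.ext (congrArg (fun z : Tame K => (z : Aut2 K)) h2)
    · intro u v huv
      have h2 := congrArg Subtype.val huv
      have h3 : (g⁻¹ * u.1 * g : Tame K) = g⁻¹ * v.1 * g := Subtype.ext h2
      exact Subtype.ext (mul_left_cancel (mul_right_cancel h3))
  · obtain ⟨g, rfl⟩ := QuotientGroup.mk_surjective x
    have h1 : ∀ u : MulAction.stabilizer (Tame K) (Sum.inr (g : Tame K ⧸ ET K) : Vt (AT K) (ET K)),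
        ((g⁻¹ * u.1 * g : Tame K) : Aut2 K) ∈ Tri K := by
      rintro ⟨u, hu⟩
      have h2 : (Sum.inr ((u * g : Tame K) : Tame K ⧸ ET K) : Vt (AT K) (ET K)) =
        Sum.inr (g : Tame K ⧸ ET K) := hu
      have h3 := Sum.inr.inj h2
      rw [eq_comm, QuotientGroup.eq] at h3
      rw [mul_assoc]
      exact h3
    refine W_sub _ _ (MonoidHom.mk' (fun u => (⟨_, h1 u⟩ : Tri K)) ?_) ?_
      (W_solv h _ tri_solvable)
    · intro u v
      have h2 : (g⁻¹ * (u.1 * v.1) * g : Tame K) = (g⁻¹ * u.1 * g) * (g⁻¹ * v.1 * g) := by group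
      exact Subtype.ext (congrArg (fun z : Tame K => (z : Aut2 K)) h2)
    · intro u v huv
      have h2 := congrArg Subtype.val huv
      have h3 : (g⁻¹ * u.1 * g : Tame K) = g⁻¹ * v.1 * g := Subtype.ext h2
      exact Subtype.ext (mul_left_cancel (mul_right_cancel h3))

/-- noetherian rings -/
theorem noeth (h : InheritBC B) (hGL : ∀ (K : Type) [Field K], W B (GL (Fin 2) K))
    {S : Type} [CommRing S] [IsNoetherianRing S] {G : Type} [Group G] [Countable G]
    (a : G →* Aut2 S) (ha : W B a.ker)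
    (hK : ∀ P ∈ minimalPrimes S, ∃ (K : Type) (_ : Field K) (f : S →+* K), RingHom.ker f = P ∧
      ∀ g, bc f (a g) ∈ Tame K) : B G := by
  have hfin : Finite (minimalPrimes S) := (minimalPrimes.finite_of_isNoetherianRing S).to_subtype
  choose K hKf f hf hT using fun P : minimalPrimes S => hK P.1 P.2
  let τ : ∀ P : minimalPrimes S, G →* Tame (K P) := fun P =>
    ((bc (f P)).comp a).codRestrict (Tame (K P)) (hT P)
  let _ : ∀ P : minimalPrimes S, MulAction G (Vt (AT (K P)) (ET (K P))) := fun P =>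
    MulAction.compHom _ (τ P)
  refine trees h (fun P : minimalPrimes S => Vt (AT (K P)) (ET (K P)))
    (fun P => cg (AT (K P)) (ET (K P))) (fun P => (deg (K P)).isTree)
    (fun P g u v => (deg (K P)).treeAct.adj (τ P g) u v)
    (fun P g u v => (deg (K P)).treeAct.noInv (τ P g) u v) ?_
  intro v T hTv
  let Φ : T →* ∀ P : minimalPrimes S, MulAction.stabilizer (Tame (K P)) (v P) :=
    MonoidHom.pi fun P => ((τ P).comp T.subtype).codRestrict _ fun g => hTv g.1 g.2 P
  have hΦ : ∀ g : T, Φ g = 1 → ∀ P, bc (f P) (a g.1) = 1 := by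
    intro g hg P
    have h1 := congrArg (fun z : MulAction.stabilizer (Tame (K P)) (v P) => (z.1 : Aut2 (K P)))
      (congrFun hg P)
    exact h1
  refine W_le T (W_hom h Φ ?_ (W_pi h _ _ fun P => W_stab h (hGL (K P)) (v P)))
  obtain ⟨n, hn⟩ := IsNoetherianRing.isNilpotent_nilradical S
  have hs := nil_solv n S (nilradical S) hn
  have hmem : ∀ g : Φ.ker, a g.1.1 ∈ (bc (Ideal.Quotient.mk (nilradical S))).ker := by
    intro g
    rw [mem_ker_bc]
    intro i m
    have h3 : nilradical S = sInf (minimalPrimes S) :=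
      (Ideal.sInf_minimalPrimes (I := (⊥ : Ideal S))).symm
    rw [h3, Submodule.mem_sInf]
    intro q hq
    have h5 : bc (f ⟨q, hq⟩) (a g.1.1) = 1 := hΦ g.1 g.2 ⟨q, hq⟩
    have h6 : MvPolynomial.map (f ⟨q, hq⟩) (a g.1.1 (X i)) = X i := by
      rw [← bc_X, h5]
      rfl
    have h7 : f ⟨q, hq⟩ (coeff m (a g.1.1 (X i) - X i)) = 0 := by
      rw [← coeff_map, map_sub, h6, MvPolynomial.map_X, sub_self, coeff_zero]
    have h8 : coeff m (a g.1.1 (X i) - X i) ∈ RingHom.ker (f ⟨q, hq⟩) := h7
    rwa [hf ⟨q, hq⟩] at h8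
  refine W_hom h ((a.comp (T.subtype.comp Φ.ker.subtype)).codRestrict _ hmem) ?_ (W_solv h _ hs)
  refine W_sub _ a.ker (((T.subtype.comp Φ.ker.subtype).comp (Subgroup.subtype _)).codRestrict
    a.ker ?_) ?_ ha
  · intro g
    exact congrArg Subtype.val g.2
  · intro x y hxy
    exact Subtype.ext (Subtype.ext (Subtype.ext (congrArg (fun z : a.ker => (z : G)) hxy)))

/-- the automorphisms defined over some finitely generated subring -/
theorem exists_sub {A : Type} [CommRing A] (φ : Aut2 A) :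
    ∃ s : Finset A, φ ∈ (bc (Subring.closure (s : Set A)).subtype).range := by
  classical
  let s : Finset A := Finset.univ.biUnion fun q : Fin 2 =>
    (φ (X q)).coeffs ∪ (φ⁻¹ (X q)).coeffs
  have hs : ∀ a ∈ s, a ∈ Subring.closure (s : Set A) := fun a ha =>
    Subring.subset_closure (Finset.mem_coe.2 ha)
  have key : ∀ (r : MvPolynomial (Fin 2) A), r.coeffs ⊆ s →
      ∀ m, coeff m r ∈ Subring.closure (s : Set A) := by
    intro r hr m
    by_cases h0 : coeff m r = 0
    · rw [h0]
      exact zero_mem _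
    · exact hs _ (hr (coeff_mem_coeffs m h0))
  refine ⟨s, mem_range_bc _ _ (fun i => key _ ?_) (fun i => key _ ?_)⟩
  · intro a ha
    exact Finset.mem_biUnion.2 ⟨i, Finset.mem_univ _, Finset.mem_union_left _ ha⟩
  · intro a ha
    exact Finset.mem_biUnion.2 ⟨i, Finset.mem_univ _, Finset.mem_union_right _ ha⟩

theorem range_mono {A : Type} [CommRing A] {S T : Subring A} (h : S ≤ T) :
    (bc S.subtype).range ≤ (bc T.subtype).range := by
  rintro _ ⟨g, rfl⟩
  refine ⟨bc (Subring.inclusion h) g, ?_⟩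
  rw [bc_bc]
  rfl

/-- **automorphisms of the affine plane over a commutative ring** -/
theorem plane (h : InheritBC B) (hGL : ∀ (K : Type) [Field K], W B (GL (Fin 2) K))
    {A : Type} [CommRing A] {G : Type} [Group G] [Countable G] (f : G →* Aut2 A)
    (hf : ∀ g, f g ∈ TA A) (hk : W B f.ker) : B G := by
  classical
  refine h.loc G fun L hL => ?_
  obtain ⟨E, hE⟩ := hL
  choose s hs using fun g : G => exists_sub (f g)
  let t : Finset A := E.biUnion s
  let S : Subring A := Subring.closure (t : Set A)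
  have hLS : ∀ g ∈ L, f g ∈ (bc S.subtype).range := by
    intro g hg
    have h1 : L ≤ (bc S.subtype).range.comap f := by
      rw [← hE, Subgroup.closure_le]
      intro x hx
      refine range_mono (Subring.closure_mono ?_) (hs x)
      intro y hy
      exact Finset.mem_coe.2 (Finset.mem_biUnion.2 ⟨x, hx, hy⟩)
    exact h1 hg
  have : IsNoetherianRing S := is_noetherian_subring_closure (t : Set A) t.finite_toSet
  have hi : Function.Injective (bc S.subtype) := bc_injective S.subtype_injective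
  let e := MonoidHom.ofInjective hi
  let a : L →* Aut2 S :=
    e.symm.toMonoidHom.comp ((f.comp L.subtype).codRestrict _ fun p => hLS p.1 p.2)
  have ha : ∀ p : L, bc S.subtype (a p) = f p := by
    intro p
    have h1 : e (a p) = ⟨f p, hLS p.1 p.2⟩ := e.apply_symm_apply _
    exact congrArg Subtype.val h1
  refine noeth h hGL a ?_ ?_
  · refine W_sub _ f.ker ((L.subtype.comp (Subgroup.subtype _)).codRestrict f.ker ?_) ?_ hk
    · intro g
      have h1 : a g.1 = 1 := g.2
      have h2 := ha g.1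
      rw [h1, map_one] at h2
      exact h2.symm
    · intro x y hxy
      exact Subtype.ext (Subtype.ext (congrArg (fun z : f.ker => (z : G)) hxy))
  · intro P hP
    obtain ⟨Q, hQ, hQP⟩ := Ideal.exists_comap_eq_of_mem_minimalPrimes_of_injective
      S.subtype_injective P hP
    have hdom : IsDomain (A ⧸ Q) := (Ideal.Quotient.isDomain_iff_prime _).2 hQ
    let fA : A →+* FractionRing (A ⧸ Q) :=
      (algebraMap (A ⧸ Q) (FractionRing (A ⧸ Q))).comp (Ideal.Quotient.mk Q)
    have hker : RingHom.ker fA = Q := by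
      have h1 : RingHom.ker fA = RingHom.ker (Ideal.Quotient.mk Q) :=
        RingHom.ker_comp_of_injective _ (IsFractionRing.injective (A ⧸ Q) (FractionRing (A ⧸ Q)))
      rw [h1, Ideal.mk_ker]
    refine ⟨FractionRing (A ⧸ Q), inferInstance, fA.comp S.subtype, ?_, ?_⟩
    · rw [← hQP]
      ext x
      have h8 : S.subtype x ∈ RingHom.ker fA ↔ S.subtype x ∈ Q := by rw [hker]
      exact h8
    · intro g
      rw [← bc_bc, ha]
      exact hf g _ fA

end Pool.Agent.H86.BCP
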